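import Pool.Agent.Helper60_AEU.Stmt
import Pool.Agent.Helper8_TRI.Heat

/-!
AEU Part III, K:MVP part 3 (helper27): the mean value property over circles implies the local
smoothing property.
-/

set_option autoImplicit false

namespace Pool.Agent.H60K.H27

open MeasureTheory Complex Filter Topology ProbabilityTheory Pool.Agent.H16Iso Pool.Agent.H62T
  Pool.Agent.H16F Pool.Agent.H38KL
open scoped ENNReal NNReal

/-- rotations preserve the volume -/
lemma mp_rot (θ : ℝ) : MeasurePreserving (fun y : ℂ => exp (θ * I) * y) volume volume := by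
  have h : MeasurePreserving (rotation (Circle.exp θ)) volume volume :=
    (rotation (Circle.exp θ)).measurePreserving
  have h2 : (fun y : ℂ => exp (θ * I) * y) = rotation (Circle.exp θ) := by
    funext y
    rw [rotation_apply, Circle.coe_exp]
  rw [h2]
  exact h

lemma me_rot (θ : ℝ) : MeasurableEmbedding (fun y : ℂ => exp (θ * I) * y) := by
  have h := (rotation (Circle.exp θ)).toHomeomorph.measurableEmbedding
  have h2 : (fun y : ℂ => exp (θ * I) * y) = (rotation (Circle.exp θ)).toHomeomorph := by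
    funext y
    show _ = rotation (Circle.exp θ) y
    rw [rotation_apply, Circle.coe_exp]
  rw [h2]
  exact h

/-- averaging over rotations -/
lemma rot_avg (H F : ℂ → ℝ) (M : ℝ) (hH : Integrable H)
    (hrot : ∀ (θ : ℝ) (y : ℂ), H (exp (θ * I) * y) = H y) (hF : Measurable F)
    (hM : ∀ y, H y ≠ 0 → |F y| ≤ M) :
    (2 * Real.pi) * ∫ y, H y * F y
      = ∫ y, H y * ∫ θ in (0 : ℝ)..(2 * Real.pi), F (exp (θ * I) * y) := by
  have h2pi : (0 : ℝ) ≤ 2 * Real.pi := by positivity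
  have hint : Integrable (fun p : ℂ × ℝ => H p.1 * F (exp (p.2 * I) * p.1))
      ((volume : Measure ℂ).prod (volume.restrict (Set.Ioc 0 (2 * Real.pi)))) := by
    have h1 : Integrable (fun p : ℂ × ℝ => M * H p.1)
        ((volume : Measure ℂ).prod (volume.restrict (Set.Ioc 0 (2 * Real.pi)))) :=
      (hH.const_mul M).comp_fst (ν := volume.restrict (Set.Ioc 0 (2 * Real.pi)))
    refine h1.mono ?_ (Eventually.of_forall fun p => ?_)
    · refine AEStronglyMeasurable.mul ?_ ?_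
      · exact hH.1.comp_fst
      · refine Measurable.aestronglyMeasurable ?_
        exact hF.comp (by fun_prop)
    · by_cases h0 : H p.1 = 0
      · simp [h0]
      · have h3 : H (exp (p.2 * I) * p.1) ≠ 0 := by rw [hrot]; exact h0
        have h4 := hM _ h3
        have hM0 : 0 ≤ M := (abs_nonneg _).trans h4
        rw [Real.norm_eq_abs, Real.norm_eq_abs, abs_mul, abs_mul, abs_of_nonneg hM0, mul_comm]
        exact mul_le_mul_of_nonneg_right h4 (abs_nonneg _)
  have h1 : ∀ y, H y * ∫ θ in (0 : ℝ)..(2 * Real.pi), F (exp (θ * I) * y)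
      = ∫ θ in Set.Ioc 0 (2 * Real.pi), H y * F (exp (θ * I) * y) := by
    intro y
    rw [intervalIntegral.integral_of_le h2pi, integral_const_mul]
  simp_rw [h1]
  rw [integral_integral_swap hint]
  have h2 : ∀ θ : ℝ, ∫ y, H y * F (exp (θ * I) * y) = ∫ y, H y * F y := by
    intro θ
    rw [← (mp_rot θ).integral_comp (me_rot θ) (fun y => H y * F y)]
    simp_rw [hrot]
  simp_rw [h2]
  rw [setIntegral_const]
  have h5 : (volume : Measure ℝ).real (Set.Ioc 0 (2 * Real.pi)) = 2 * Real.pi := by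
    rw [Measure.real, Real.volume_Ioc, sub_zero, ENNReal.toReal_ofReal h2pi]
  rw [h5, smul_eq_mul]

/-- circle means of a function which satisfies the mean value property -/
lemma circ (v : ℂ → ℝ) (z y : ℂ) (c : ℝ)
    (h : ∫ φ in (0 : ℝ)..(2 * Real.pi), v (z + ‖y‖ * exp (φ * I)) = c) :
    ∫ θ in (0 : ℝ)..(2 * Real.pi), v (z + exp (θ * I) * y) = c := by
  have h1 : ∀ θ : ℝ, z + exp (θ * I) * y = z + ‖y‖ * exp (((θ + arg y : ℝ) : ℂ) * I) := by
    intro θ
    have h2 : y = ‖y‖ * exp (arg y * I) := (Complex.norm_mul_exp_arg_mul_I y).symm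
    rw [ofReal_add, add_mul, Complex.exp_add]
    nth_rewrite 1 [h2]
    ring
  simp_rw [h1]
  have hper : Function.Periodic (fun φ : ℝ => v (z + ‖y‖ * exp ((φ : ℂ) * I))) (2 * Real.pi) := by
    intro φ
    show v _ = v _
    congr 3
    push_cast
    rw [add_mul, Complex.exp_add]
    have : exp (2 * (Real.pi : ℂ) * I) = 1 := Complex.exp_two_pi_mul_I
    rw [this, mul_one]
  rw [intervalIntegral.integral_comp_add_right (fun φ : ℝ => v (z + ‖y‖ * exp ((φ : ℂ) * I)))
    (arg y)]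
  have := hper.intervalIntegral_add_eq (arg y) 0
  rw [zero_add] at this ⊢
  rw [add_comm (2 * Real.pi) (arg y), this]
  exact h

lemma gshift (δ κ : ℝ) (hδ : 0 < δ) (y : ℂ) :
    G δ y * Real.exp (κ * y.re) = Real.exp (κ ^ 2 * δ) * G δ (y - (2 * κ * δ : ℝ)) := by
  unfold G
  have h1 : ‖y - ((2 * κ * δ : ℝ) : ℂ)‖ ^ 2 = ‖y‖ ^ 2 - 4 * κ * δ * y.re + 4 * κ ^ 2 * δ ^ 2 := by
    rw [Complex.sq_norm, Complex.sq_norm, normSq_apply, normSq_apply]
    simp only [sub_re, sub_im, ofReal_re, ofReal_im]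
    ring
  rw [h1, div_mul_eq_mul_div, mul_div_assoc', ← Real.exp_add, ← Real.exp_add]
  congr 2
  field_simp
  ring

lemma gexp_int (δ κ : ℝ) (hδ : 0 < δ) : Integrable (fun y : ℂ => G δ y * Real.exp (κ * y.re)) := by
  simp_rw [gshift δ κ hδ]
  exact ((Pool.Agent.H62T.H8.G_integrable hδ).comp_sub_right _).const_mul _

lemma gexp (δ κ : ℝ) (hδ : 0 < δ) : ∫ y : ℂ, G δ y * Real.exp (κ * y.re) = Real.exp (κ ^ 2 * δ) := by
  simp_rw [gshift δ κ hδ]
  rw [integral_const_mul, integral_sub_right_eq_self, Pool.Agent.H62T.H8.G_integral hδ, mul_one]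


lemma circ_exp (κ : ℝ) (y : ℂ) :
    ∫ θ in (0 : ℝ)..(2 * Real.pi), Real.exp (κ * (exp (θ * I) * y).re)
      = 2 * Real.pi * I0 (κ * ‖y‖) := by
  have h := circ (fun w => Real.exp (κ * w.re)) 0 y (2 * Real.pi * I0 (κ * ‖y‖)) ?_
  · simpa only [zero_add] using h
  · have h1 : ∀ φ : ℝ, ((0 : ℂ) + ‖y‖ * exp (φ * I)).re = ‖y‖ * Real.cos φ := by
      intro φ
      rw [zero_add, re_ofReal_mul, exp_ofReal_mul_I_re]
    simp_rw [h1]
    unfold I0
    have hpi : (2 * Real.pi) ≠ 0 := by positivity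
    rw [← mul_assoc, mul_one_div_cancel hpi, one_mul]
    refine intervalIntegral.integral_congr fun φ _ => ?_
    show Real.exp _ = Real.exp _
    congr 1
    ring

lemma I0_cont : Continuous I0 := by
  unfold I0
  refine Continuous.mul continuous_const ?_
  exact intervalIntegral.continuous_parametric_intervalIntegral_of_continuous'
    (by fun_prop) _ _

lemma I0_nonneg (x : ℝ) : 0 ≤ I0 x := by
  unfold I0
  refine mul_nonneg (by positivity) ?_
  exact intervalIntegral.integral_nonneg (by positivity) fun _ _ => (Real.exp_pos _).le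

lemma I0_le {x : ℝ} (hx : 0 ≤ x) : I0 x ≤ Real.exp x := by
  unfold I0
  have h2pi : (0 : ℝ) < 2 * Real.pi := by positivity
  have h : ∫ φ in (0 : ℝ)..(2 * Real.pi), Real.exp (x * Real.cos φ)
      ≤ ∫ φ in (0 : ℝ)..(2 * Real.pi), Real.exp x := by
    refine intervalIntegral.integral_mono_on h2pi.le ?_ ?_ fun φ _ => ?_
    · exact (Continuous.intervalIntegrable (by fun_prop) _ _)
    · exact (Continuous.intervalIntegrable (by fun_prop) _ _)
    · refine Real.exp_le_exp.2 ?_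
      nlinarith [Real.cos_le_one φ]
  rw [intervalIntegral.integral_const, smul_eq_mul, sub_zero] at h
  calc 1 / (2 * Real.pi) * _ ≤ 1 / (2 * Real.pi) * (2 * Real.pi * Real.exp x) :=
        mul_le_mul_of_nonneg_left h (by positivity)
    _ = Real.exp x := by field_simp

lemma I0_zero : I0 0 = 1 := by
  unfold I0
  have h2pi : (2 * Real.pi) ≠ 0 := by positivity
  simp only [zero_mul, Real.exp_zero, intervalIntegral.integral_const, smul_eq_mul, sub_zero,
    mul_one]
  field_simp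

lemma G_exp_le (δ κ : ℝ) (hδ : 0 < δ) (y : ℂ) :
    G δ y * Real.exp (κ * ‖y‖)
      ≤ 2 * Real.exp (4 * κ ^ 2 * δ) * (Real.exp (-(‖y‖ ^ 2 / (16 * δ))) * G (2 * δ) y) := by
  unfold G
  have h1 : Real.exp (-‖y‖ ^ 2 / (4 * δ)) / (4 * Real.pi * δ) * Real.exp (κ * ‖y‖)
      = 2 * Real.exp (-‖y‖ ^ 2 / (4 * δ) + κ * ‖y‖) / (4 * Real.pi * (2 * δ)) := by
    rw [Real.exp_add]
    field_simp
  have h2 : 2 * Real.exp (4 * κ ^ 2 * δ) * (Real.exp (-(‖y‖ ^ 2 / (16 * δ)))
      * (Real.exp (-‖y‖ ^ 2 / (4 * (2 * δ))) / (4 * Real.pi * (2 * δ))))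
      = 2 * Real.exp (4 * κ ^ 2 * δ + -(‖y‖ ^ 2 / (16 * δ)) + -‖y‖ ^ 2 / (4 * (2 * δ)))
        / (4 * Real.pi * (2 * δ)) := by
    rw [Real.exp_add, Real.exp_add]
    ring
  rw [h1, h2]
  have h3 : 0 < 4 * Real.pi * (2 * δ) := by positivity
  refine (div_le_div_iff_of_pos_right h3).2 ?_
  refine mul_le_mul_of_nonneg_left (Real.exp_le_exp.2 ?_) (by norm_num)
  have h4 : 4 * κ ^ 2 * δ + -(‖y‖ ^ 2 / (16 * δ)) + -‖y‖ ^ 2 / (4 * (2 * δ))
      - (-‖y‖ ^ 2 / (4 * δ) + κ * ‖y‖) = (‖y‖ - 8 * κ * δ) ^ 2 / (16 * δ) := by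
    field_simp
    ring
  have h5 : 0 ≤ (‖y‖ - 8 * κ * δ) ^ 2 / (16 * δ) := by positivity
  linarith

lemma G_exp_le' (δ κ : ℝ) (hδ : 0 < δ) (y : ℂ) :
    G δ y * Real.exp (κ * ‖y‖) ≤ 2 * Real.exp (4 * κ ^ 2 * δ) * G (2 * δ) y := by
  refine (G_exp_le δ κ hδ y).trans ?_
  have h0 : 0 ≤ G (2 * δ) y := Pool.Agent.H62T.H8.G_nonneg (by positivity) y
  refine mul_le_mul_of_nonneg_left ?_ (by positivity)
  refine mul_le_of_le_one_left h0 (Real.exp_le_one_iff.2 ?_)
  have : 0 ≤ ‖y‖ ^ 2 / (16 * δ) := by positivity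
  linarith

lemma G_expn_int (δ κ : ℝ) (hδ : 0 < δ) :
    Integrable (fun y : ℂ => G δ y * Real.exp (κ * ‖y‖)) := by
  refine ((Pool.Agent.H62T.H8.G_integrable (s := 2 * δ) (by positivity)).const_mul
    (2 * Real.exp (4 * κ ^ 2 * δ))).mono' ?_ (Eventually.of_forall fun y => ?_)
  · exact ((Pool.Agent.H62T.H8.G_cont δ).mul (by fun_prop)).aestronglyMeasurable
  · rw [Real.norm_of_nonneg (mul_nonneg (Pool.Agent.H62T.H8.G_nonneg hδ y) (Real.exp_pos _).le)]
    exact G_exp_le' δ κ hδ y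

lemma GI0_int (δ κ : ℝ) (hδ : 0 < δ) (hκ : 0 < κ) :
    Integrable (fun y : ℂ => G δ y * I0 (κ * ‖y‖)) := by
  refine (G_expn_int δ κ hδ).mono' ?_ (Eventually.of_forall fun y => ?_)
  · exact ((Pool.Agent.H62T.H8.G_cont δ).mul
      (I0_cont.comp (by fun_prop))).aestronglyMeasurable
  · have h0 := Pool.Agent.H62T.H8.G_nonneg hδ y
    rw [Real.norm_of_nonneg (mul_nonneg h0 (I0_nonneg _))]
    exact mul_le_mul_of_nonneg_left (I0_le (by positivity)) h0

lemma GI0 (δ κ : ℝ) (hδ : 0 < δ) (hκ : 0 < κ) :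
    ∫ y : ℂ, G δ y * I0 (κ * ‖y‖) = Real.exp (κ ^ 2 * δ) := by
  have h := rot_avg (fun y => G δ y * Real.exp (κ * ‖y‖))
    (fun y => Real.exp (-(κ * ‖y‖)) * Real.exp (κ * y.re)) 1 (G_expn_int δ κ hδ) ?_ ?_ ?_
  · have h1 : ∀ y : ℂ, G δ y * Real.exp (κ * ‖y‖) *
        (Real.exp (-(κ * ‖y‖)) * Real.exp (κ * y.re)) = G δ y * Real.exp (κ * y.re) := by
      intro y
      have : Real.exp (κ * ‖y‖) * Real.exp (-(κ * ‖y‖)) = 1 := by
        rw [← Real.exp_add, add_neg_cancel, Real.exp_zero]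
      calc _ = G δ y * (Real.exp (κ * ‖y‖) * Real.exp (-(κ * ‖y‖))) * Real.exp (κ * y.re) := by
            ring
        _ = _ := by rw [this, mul_one]
    have h2 : ∀ y : ℂ, G δ y * Real.exp (κ * ‖y‖) * ∫ θ in (0 : ℝ)..(2 * Real.pi),
        (Real.exp (-(κ * ‖exp (θ * I) * y‖)) * Real.exp (κ * (exp (θ * I) * y).re))
        = 2 * Real.pi * (G δ y * I0 (κ * ‖y‖)) := by
      intro y
      have h3 : ∀ θ : ℝ, ‖exp (θ * I) * y‖ = ‖y‖ := by
        intro θ
        rw [norm_mul, Complex.norm_exp_ofReal_mul_I, one_mul]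
      simp_rw [h3]
      rw [intervalIntegral.integral_const_mul, circ_exp]
      have : Real.exp (κ * ‖y‖) * Real.exp (-(κ * ‖y‖)) = 1 := by
        rw [← Real.exp_add, add_neg_cancel, Real.exp_zero]
      calc _ = G δ y * (Real.exp (κ * ‖y‖) * Real.exp (-(κ * ‖y‖))) * (2 * Real.pi
              * I0 (κ * ‖y‖)) := by ring
        _ = _ := by rw [this]; ring
    simp_rw [h1, h2] at h
    rw [integral_const_mul, gexp δ κ hδ] at h
    have hpi : (2 * Real.pi) ≠ 0 := by positivity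
    exact (mul_left_cancel₀ hpi h).symm
  · intro θ y
    have h3 : ‖exp (θ * I) * y‖ = ‖y‖ := by
      rw [norm_mul, Complex.norm_exp_ofReal_mul_I, one_mul]
    show G δ _ * _ = G δ _ * _
    unfold G
    rw [h3]
  · exact Continuous.measurable (by fun_prop)
  · intro y _
    rw [abs_of_pos (by positivity), ← Real.exp_add]
    refine Real.exp_le_one_iff.2 ?_
    have := Complex.re_le_norm y
    nlinarith

lemma tail (δ κ r : ℝ) (hδ : 0 < δ) (hκ : 0 < κ) (hr : 0 < r) :
    0 ≤ ∫ y in (Metric.ball (0 : ℂ) r)ᶜ, G δ y * I0 (κ * ‖y‖) ∧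
    ∫ y in (Metric.ball (0 : ℂ) r)ᶜ, G δ y * I0 (κ * ‖y‖)
      ≤ 2 * Real.exp (4 * κ ^ 2 * δ) * Real.exp (-(r ^ 2 / (16 * δ))) := by
  constructor
  · exact integral_nonneg fun y => mul_nonneg (Pool.Agent.H62T.H8.G_nonneg hδ y) (I0_nonneg _)
  · have hG : Integrable (G (2 * δ)) := Pool.Agent.H62T.H8.G_integrable (by positivity)
    calc ∫ y in (Metric.ball (0 : ℂ) r)ᶜ, G δ y * I0 (κ * ‖y‖)
        ≤ ∫ y in (Metric.ball (0 : ℂ) r)ᶜ,
          2 * Real.exp (4 * κ ^ 2 * δ) * Real.exp (-(r ^ 2 / (16 * δ))) * G (2 * δ) y := by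
          refine setIntegral_mono_on (GI0_int δ κ hδ hκ).integrableOn
            (hG.const_mul _).integrableOn measurableSet_ball.compl fun y hy => ?_
          have h0 := Pool.Agent.H62T.H8.G_nonneg hδ y
          have hy' : r ≤ ‖y‖ := by
            simpa using hy
          have hG2 := Pool.Agent.H62T.H8.G_nonneg (s := 2 * δ) (by positivity) y
          calc G δ y * I0 (κ * ‖y‖) ≤ G δ y * Real.exp (κ * ‖y‖) :=
                mul_le_mul_of_nonneg_left (I0_le (by positivity)) h0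
            _ ≤ _ := G_exp_le δ κ hδ y
            _ ≤ 2 * Real.exp (4 * κ ^ 2 * δ) * (Real.exp (-(r ^ 2 / (16 * δ)))
                * G (2 * δ) y) := by
                refine mul_le_mul_of_nonneg_left ?_ (by positivity)
                refine mul_le_mul_of_nonneg_right (Real.exp_le_exp.2 ?_) hG2
                have : r ^ 2 / (16 * δ) ≤ ‖y‖ ^ 2 / (16 * δ) := by
                  gcongr
                linarith
            _ = _ := by ring
      _ ≤ ∫ y, 2 * Real.exp (4 * κ ^ 2 * δ) * Real.exp (-(r ^ 2 / (16 * δ))) * G (2 * δ) y := by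
          refine setIntegral_le_integral (hG.const_mul _) (Eventually.of_forall fun y => ?_)
          exact mul_nonneg (by positivity) (Pool.Agent.H62T.H8.G_nonneg (by positivity) y)
      _ = _ := by
          rw [integral_const_mul, Pool.Agent.H62T.H8.G_integral (by positivity), mul_one]

/-- the local integral -/
lemma local_int (κ : ℝ) (W : Set ℂ) (v : ℂ → ℝ) (_hκ : 0 < κ) (hv : Measurable v)
    (hmvp : MVP κ W v) (z : ℂ) (r M δ : ℝ) (hδ : 0 < δ) (_hr : 0 < r)
    (hW : Metric.closedBall z r ⊆ W) (hM : ∀ y ∈ Metric.closedBall z r, |v y| ≤ M) :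
    ∫ y in Metric.ball z r, G δ (z - y) * v y
      = v z * ∫ y in Metric.ball (0 : ℂ) r, G δ y * I0 (κ * ‖y‖) := by
  have hpi : (2 * Real.pi) ≠ 0 := by positivity
  set H : ℂ → ℝ := (Metric.ball (0 : ℂ) r).indicator (G δ) with hHdef
  have h1 : ∫ y in Metric.ball z r, G δ (z - y) * v y = ∫ y, H y * v (z + y) := by
    rw [← integral_indicator measurableSet_ball]
    rw [← integral_add_left_eq_self _ z]
    refine integral_congr_ae (Eventually.of_forall fun y => ?_)
    show (Metric.ball z r).indicator _ (z + y) = H y * v (z + y)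
    rw [hHdef]
    by_cases hy : y ∈ Metric.ball (0 : ℂ) r
    · have hy2 : z + y ∈ Metric.ball z r := by
        simpa [Metric.mem_ball, dist_eq_norm] using hy
      rw [Set.indicator_of_mem hy2, Set.indicator_of_mem hy, sub_add_cancel_left,
        Pool.Agent.H62T.H8.G_neg]
    · have hy2 : z + y ∉ Metric.ball z r := by
        simpa [Metric.mem_ball, dist_eq_norm] using hy
      rw [Set.indicator_of_notMem hy2, Set.indicator_of_notMem hy, zero_mul]
  have h2 : ∫ y in Metric.ball (0 : ℂ) r, G δ y * I0 (κ * ‖y‖) = ∫ y, H y * I0 (κ * ‖y‖) := by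
    rw [← integral_indicator measurableSet_ball]
    refine integral_congr_ae (Eventually.of_forall fun y => ?_)
    show (Metric.ball (0 : ℂ) r).indicator _ y = H y * _
    rw [hHdef]
    by_cases hy : y ∈ Metric.ball (0 : ℂ) r
    · rw [Set.indicator_of_mem hy, Set.indicator_of_mem hy]
    · rw [Set.indicator_of_notMem hy, Set.indicator_of_notMem hy, zero_mul]
  rw [h1, h2]
  have hHi : Integrable H := (Pool.Agent.H62T.H8.G_integrable hδ).indicator measurableSet_ball
  have h3 := rot_avg H (fun y => v (z + y)) M hHi ?_ (hv.comp (by fun_prop)) ?_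
  · have h4 : ∀ y, H y * ∫ θ in (0 : ℝ)..(2 * Real.pi), v (z + exp (θ * I) * y)
        = 2 * Real.pi * (v z * (H y * I0 (κ * ‖y‖))) := by
      intro y
      by_cases hy : y ∈ Metric.ball (0 : ℂ) r
      · have h5 : ∫ θ in (0 : ℝ)..(2 * Real.pi), v (z + exp (θ * I) * y)
            = 2 * Real.pi * I0 (κ * ‖y‖) * v z := by
          by_cases hy0 : y = 0
          · subst hy0
            simp only [mul_zero, add_zero, norm_zero, intervalIntegral.integral_const,
              smul_eq_mul, sub_zero, I0_zero, mul_one]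
          · apply circ
            have hpos : 0 < ‖y‖ := norm_pos_iff.2 hy0
            have hlt : ‖y‖ < r := by simpa using hy
            exact (hmvp z ‖y‖ hpos
              ((Metric.closedBall_subset_closedBall hlt.le).trans hW)).2
        rw [h5]
        ring
      · have : H y = 0 := Set.indicator_of_notMem hy _
        rw [this]
        ring
    simp_rw [h4] at h3
    rw [integral_const_mul, integral_const_mul] at h3
    exact mul_left_cancel₀ hpi h3
  · intro θ y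
    have hn : ‖exp (θ * I) * y‖ = ‖y‖ := by
      rw [norm_mul, Complex.norm_exp_ofReal_mul_I, one_mul]
    rw [hHdef]
    by_cases hy : y ∈ Metric.ball (0 : ℂ) r
    · have hy2 : exp (θ * I) * y ∈ Metric.ball (0 : ℂ) r := by
        rw [mem_ball_zero_iff, hn]
        simpa using hy
      rw [Set.indicator_of_mem hy2, Set.indicator_of_mem hy]
      unfold G
      rw [hn]
    · have hy2 : exp (θ * I) * y ∉ Metric.ball (0 : ℂ) r := by
        rw [mem_ball_zero_iff, hn]
        simpa using hy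
      rw [Set.indicator_of_notMem hy2, Set.indicator_of_notMem hy]
  · intro y hy
    have hy1 : y ∈ Metric.ball (0 : ℂ) r := by
      by_contra hno
      exact hy (Set.indicator_of_notMem hno _)
    refine hM _ ?_
    rw [Metric.mem_closedBall, dist_eq_norm, add_sub_cancel_left]
    have : ‖y‖ < r := by simpa using hy1
    exact this.le

lemma smallness (κ r M ε : ℝ) (hr : 0 < r) (hM : 0 ≤ M) (hε : 0 < ε) :
    ∃ δ0 : ℝ, 0 < δ0 ∧ ∀ δ : ℝ, 0 < δ → δ < δ0 →
      M * (2 * Real.exp (4 * κ ^ 2 * δ) * Real.exp (-(r ^ 2 / (16 * δ)))) ≤ ε * δ := by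
  set A : ℝ := 1024 * (M + 1) * Real.exp (4 * κ ^ 2) / r ^ 4 with hA
  have hA0 : 0 < A := by positivity
  refine ⟨min 1 (ε / A), by positivity, fun δ hδ hδ0 => ?_⟩
  have hδ1 : δ < 1 := hδ0.trans_le (min_le_left _ _)
  have hδ2 : δ < ε / A := hδ0.trans_le (min_le_right _ _)
  have h1 : Real.exp (-(r ^ 2 / (16 * δ))) ≤ 512 * δ ^ 2 / r ^ 4 := by
    have h2 : (r ^ 2 / (16 * δ)) ^ 2 / 2 ≤ Real.exp (r ^ 2 / (16 * δ)) := by
      have h3 := Real.quadratic_le_exp_of_nonneg (x := r ^ 2 / (16 * δ)) (by positivity)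
      have h4 : 0 ≤ r ^ 2 / (16 * δ) := by positivity
      linarith
    rw [Real.exp_neg]
    have h5 : 0 < (r ^ 2 / (16 * δ)) ^ 2 / 2 := by positivity
    calc (Real.exp (r ^ 2 / (16 * δ)))⁻¹ ≤ ((r ^ 2 / (16 * δ)) ^ 2 / 2)⁻¹ :=
          inv_anti₀ h5 h2
      _ = 512 * δ ^ 2 / r ^ 4 := by
          field_simp
          ring
  have h6 : Real.exp (4 * κ ^ 2 * δ) ≤ Real.exp (4 * κ ^ 2) := by
    refine Real.exp_le_exp.2 ?_
    have : 0 ≤ 4 * κ ^ 2 := by positivity
    nlinarith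
  calc M * (2 * Real.exp (4 * κ ^ 2 * δ) * Real.exp (-(r ^ 2 / (16 * δ))))
      ≤ (M + 1) * (2 * Real.exp (4 * κ ^ 2) * (512 * δ ^ 2 / r ^ 4)) := by
        gcongr
        linarith
    _ = A * δ * δ := by
        rw [hA]
        ring
    _ ≤ ε * δ := by
        refine mul_le_mul_of_nonneg_right ?_ hδ.le
        have := (lt_div_iff₀ hA0).1 hδ2
        linarith

/-- the mean value property over circles implies the local smoothing property -/
theorem mvp3 : ∀ (κ : ℝ) (W : Set ℂ) (v : ℂ → ℝ), 0 < κ → IsOpen W → Measurable v →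
    (∀ K : Set ℂ, IsCompact K → K ⊆ W → ∃ M : ℝ, ∀ z ∈ K, |v z| ≤ M) → MVP κ W v →
    LMP (κ ^ 2) W v := by
  intro κ W v hκ hW hv hb hmvp K hK hKW
  obtain ⟨r, hr, hrW⟩ := hK.exists_cthickening_subset_open hW hKW
  have hcb : ∀ z ∈ K, Metric.closedBall z r ⊆ Metric.cthickening r K := fun z hz =>
    Metric.closedBall_subset_cthickening hz r
  obtain ⟨M, hM⟩ := hb _ (hK.cthickening (r := r)) hrW
  refine ⟨r, hr, fun z hz => (hcb z hz).trans hrW, ⟨M, fun z hz y hy => hM y (hcb z hz hy)⟩, ?_⟩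
  intro ε hε
  obtain ⟨δ0, hδ0, hδ⟩ := smallness κ r |M| ε hr (abs_nonneg M) hε
  refine ⟨δ0, hδ0, fun δ hδp hδlt z hz => ?_⟩
  rw [local_int κ W v hκ hv hmvp z r M δ hδp hr ((hcb z hz).trans hrW)
    fun y hy => hM y (hcb z hz hy)]
  have hsplit := integral_add_compl (μ := volume) (measurableSet_ball (x := (0 : ℂ)) (ε := r))
    (GI0_int δ κ hδp hκ)
  rw [GI0 δ κ hδp hκ] at hsplit
  obtain ⟨ht0, ht1⟩ := tail δ κ r hδp hκ hr
  set T : ℝ := ∫ y in (Metric.ball (0 : ℂ) r)ᶜ, G δ y * I0 (κ * ‖y‖) with hT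
  have h1 : ∫ y in Metric.ball (0 : ℂ) r, G δ y * I0 (κ * ‖y‖) = Real.exp (κ ^ 2 * δ) - T := by
    linarith
  rw [h1]
  have h2 : Real.exp (-(κ ^ 2 * δ)) * Real.exp (κ ^ 2 * δ) = 1 := by
    rw [← Real.exp_add, neg_add_cancel, Real.exp_zero]
  have h3 : v z - Real.exp (-(κ ^ 2 * δ)) * (v z * (Real.exp (κ ^ 2 * δ) - T))
      = v z * (Real.exp (-(κ ^ 2 * δ)) * T) := by
    calc _ = v z * (1 - Real.exp (-(κ ^ 2 * δ)) * Real.exp (κ ^ 2 * δ))
          + v z * (Real.exp (-(κ ^ 2 * δ)) * T) := by ring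
      _ = _ := by rw [h2]; ring
  rw [h3, abs_mul, abs_of_nonneg (mul_nonneg (Real.exp_pos _).le ht0)]
  have h4 : |v z| ≤ |M| := (hM z (hcb z hz (Metric.mem_closedBall_self hr.le))).trans
    (le_abs_self M)
  have h5 : Real.exp (-(κ ^ 2 * δ)) ≤ 1 := Real.exp_le_one_iff.2 (by
    have : 0 ≤ κ ^ 2 * δ := by positivity
    linarith)
  calc |v z| * (Real.exp (-(κ ^ 2 * δ)) * T) ≤ |M| * (1 * T) := by
        gcongr
    _ ≤ |M| * (2 * Real.exp (4 * κ ^ 2 * δ) * Real.exp (-(r ^ 2 / (16 * δ)))) := by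
        rw [one_mul]
        gcongr
    _ ≤ ε * δ := hδ δ hδp hδlt

end Pool.Agent.H60K.H27
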